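import Pool.Agent.HM13.LS.Hard

/-!
# A linear grammar with one nonterminal and five short recursive rules which is as hard as all
linear grammars

Let `five` be the linear grammar

  `S → 0 S 0001 | 1 S 01 | S 00 | S 10 | S 00000 | #`

over the alphabet `{0, 1, #}` (here `0 = some false`, `1 = some true`, `# = none`).

Theorem. All linear languages are in `L` (deterministic logarithmic space) if and only if the
language of `five` is in `L`.

So the question `LIN ⊆ L` is a question about one explicit language generated by a linear grammar
with *one* nonterminal and five recursive rules, in other words: about the membership problem for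
the submonoid of `{0,1}* × {0,1}*` that is generated by the five pairs

  `(0, 1000), (1, 10), (ε, 00), (ε, 01), (ε, 00000)`.

In particular it is enough to decide in logarithmic space the languages of linear grammars with one
nonterminal. (With at most two recursive rules such languages are in `L`, see the result
`NoncommutingCycles`.)

Proof. A word `w` is generated by a linear grammar `G` if and only if in the graph of the
configurations (nonterminal, number of letters generated on the left, on the right) the final vertex
can be reached from the initial vertex. Let `V` be the number of vertices `0, …, V - 1`; all loops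
are added to the graph, so reachability means: there is a path of length `V` from `s` to `t`. Let
`u = 0^(V-1-s) 1 (0^V 1)^(V-1) 0^(t+1)` and let `v` be the concatenation of `00000`, of `V` copies of
the list of the words `e(p, q) = (1000)^(V-1-p) 10 (1000)^q 100000000` for all edges `(p, q)`, and
of `1`. The pair `(u, v)` is in the submonoid if and only if there is a path of length `V` from `s`
to `t`: if one reads `v` from left to right, then the parity of the number of zeros before the next
`1` is a state; in the even state the word `e(p, q)` is read together with a word
`0^(V-1-p) 1 0^(q+1)`, in the odd state it is read together with the empty word. Only the long runs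
of zeros between the words `e(p, q)` allow a change of the state, by the pair `(ε, 00000)`. The
distances of the ones in `u` make sure that the chosen edges form a path.

The words `u, v` are computed in logarithmic space: `u` and `v` are not written down, the letters
are recomputed whenever they are read.
-/

set_option autoImplicit false

namespace Pool.Agent.Results.MP_cb9e82_lc.FiveRules

open Pool.Agent.TH457.HT Pool.Agent.HM13.LS Pool.Agent.HM13.Five

/-- the letter `0` -/
abbrev o : Option Bool := some false

/-- the letter `1` -/
abbrev i : Option Bool := some true

/-- The linear grammar `S → 0 S 0001 | 1 S 01 | S 00 | S 10 | S 00000 | #`. -/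
def five : LinGrammar (Option Bool) where
  NT := Unit
  start := ()
  inner := {((), [o], (), [o, o, o, i]), ((), [i], (), [o, i]), ((), [], (), [o, o]),
    ((), [], (), [i, o]), ((), [], (), [o, o, o, o, o])}
  last := {((), [none])}
  inner_fin := Set.toFinite _
  last_fin := Set.toFinite _

theorem mem_inner (A B : Unit) (u v : List (Option Bool)) :
    (A, u, B, v) ∈ five.inner ↔ (u = [o] ∧ v = [o, o, o, i]) ∨ (u = [i] ∧ v = [o, i]) ∨
      (u = [] ∧ v = [o, o]) ∨ (u = [] ∧ v = [i, o]) ∨ (u = [] ∧ v = [o, o, o, o, o]) := by
  show (A, u, B, v) ∈ ({((), [o], (), [o, o, o, i]), ((), [i], (), [o, i]), ((), [], (), [o, o]),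
    ((), [], (), [i, o]), ((), [], (), [o, o, o, o, o])} :
    Set (Unit × List (Option Bool) × Unit × List (Option Bool))) ↔ _
  simp only [Set.mem_insert_iff, Set.mem_singleton_iff, Prod.mk.injEq, true_and]

theorem mem_last (A : Unit) (u : List (Option Bool)) :
    (A, u) ∈ five.last ↔ u = [none] := by
  show (A, u) ∈ ({((), [none])} : Set (Unit × List (Option Bool))) ↔ _
  simp only [Set.mem_singleton_iff, Prod.mk.injEq, true_and]

/-- the words of the grammar are the words `x # y^R` for the elements `(x, y)` of the submonoid -/
theorem gen_iff_m {w : List (Option Bool)} : five.Gen () w ↔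
    ∃ x y, M x y ∧ w = x.map some ++ none :: (y.map some).reverse := by
  constructor
  · intro h
    have key : ∀ (A : five.NT) (w : List (Option Bool)), five.Gen A w →
        ∃ x y, M x y ∧ w = x.map some ++ none :: (y.map some).reverse := by
      intro A w h
      induction h with
      | last A u h =>
        exact ⟨[], [], M.nil, by rw [(mem_last A u).1 h]; rfl⟩
      | inner A B u v w h _ ih =>
        obtain ⟨x, y, hM, rfl⟩ := ih
        rcases (mem_inner A B u v).1 h with ⟨rfl, rfl⟩ | ⟨rfl, rfl⟩ | ⟨rfl, rfl⟩ | ⟨rfl, rfl⟩ |
          ⟨rfl, rfl⟩
        · exact ⟨_, _, M.a hM, by simp⟩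
        · exact ⟨_, _, M.d hM, by simp⟩
        · exact ⟨_, _, M.e2 hM, by simp⟩
        · exact ⟨_, _, M.e1 hM, by simp⟩
        · exact ⟨_, _, M.e5 hM, by simp⟩
    exact key () w h
  · rintro ⟨x, y, hM, rfl⟩
    induction hM with
    | nil =>
      have := LinGrammar.Gen.last (G := five) () [none] ((mem_last () [none]).2 rfl)
      exact this
    | a _ ih =>
      have := LinGrammar.Gen.inner (G := five) () () [o] [o, o, o, i] _
        ((mem_inner _ _ _ _).2 (Or.inl ⟨rfl, rfl⟩)) ih
      simpa using this
    | d _ ih =>
      have := LinGrammar.Gen.inner (G := five) () () [i] [o, i] _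
        ((mem_inner _ _ _ _).2 (Or.inr (Or.inl ⟨rfl, rfl⟩))) ih
      simpa using this
    | e2 _ ih =>
      have := LinGrammar.Gen.inner (G := five) () () [] [o, o] _
        ((mem_inner _ _ _ _).2 (Or.inr (Or.inr (Or.inl ⟨rfl, rfl⟩)))) ih
      simpa using this
    | e1 _ ih =>
      have := LinGrammar.Gen.inner (G := five) () () [] [i, o] _
        ((mem_inner _ _ _ _).2 (Or.inr (Or.inr (Or.inr (Or.inl ⟨rfl, rfl⟩))))) ih
      simpa using this
    | e5 _ ih =>
      have := LinGrammar.Gen.inner (G := five) () () [] [o, o, o, o, o] _
        ((mem_inner _ _ _ _).2 (Or.inr (Or.inr (Or.inr (Or.inr ⟨rfl, rfl⟩))))) ih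
      simpa using this

theorem mem_iff_m {x y : List Bool} :
    (x.map some ++ none :: (y.map some).reverse) ∈ five.language ↔ M x y := by
  show five.Gen () _ ↔ _
  rw [gen_iff_m]
  constructor
  · rintro ⟨x', y', hM, h⟩
    have h1 : (none : Option Bool) ∉ x.map some := by simp
    have h3 : (none : Option Bool) ∉ (y.map some).reverse := by simp
    obtain ⟨h5, _, h6⟩ := (List.append_cons_inj_of_notMem h1 h3).1 h
    rw [List.reverse_inj] at h6
    have hinj : Function.Injective (List.map (some : Bool → Option Bool)) :=
      List.map_injective_iff.2 (Option.some_injective _)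
    rw [hinj h5, hinj h6]
    exact hM
  · intro h
    exact ⟨x, y, h, rfl⟩

/-- **Theorem.** All linear languages are in `L` if and only if the language of the linear grammar
`S → 0 S 0001 | 1 S 01 | S 00 | S 10 | S 00000 | #` is in `L`. -/
theorem result :
    (∀ (α : Type) (G : LinGrammar α), InL G.language) ↔ InL five.language := by
  constructor
  · exact fun h => h _ five
  · intro h α G
    have h1 : LV (fun (w : List α) (_ : Unit) =>
        ((lw G w).flatMap fun b => [some b]) ++ ([none] ++
          ((rw' G w).flatMap fun b => [some b]).reverse)) :=
      (lv_lw.flatMap _).append ((LV.single none).append (lv_rw.flatMap _).reverse)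
    refine ((h.reduce h1).congr fun w _ => ?_).inL
    rw [language_iff_m (G := G) (w := w), ← mem_iff_m]
    have h2 : ∀ l : List Bool, (l.flatMap fun b => [some b]) = l.map some := by
      intro l
      induction l with
      | nil => rfl
      | cons b l ih => simp [ih]
    rw [h2, h2]
    rfl

end Pool.Agent.Results.MP_cb9e82_lc.FiveRules
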