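import Pool.Agent.HM13.LC.Main

/-!
# A linear context-free language which needs superlinear time or linear space, even with random access

The letters are bits, some of which carry a flag; the flag is again a bit (`Letter = Bool × Option Bool`).
The grammar `gram` has the nonterminals `s`, `t_0`, `t_1`, the start symbol `s` and the rules

* `s → s a`, for all letters `a`;
* `s → t_c (b, c)`, for all bits `b` and all flags `c`;
* `t_c → a t_c' a'`, `c' = c + a a'` (sum modulo 2 of `c` and of the product of the bits of `a`, `a'`);
* `t_1 → ε`, `t_1 → a`.

So a word is in the language if and only if it has a flag which is wrong: the letter at some position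
`j` (the positions are `0, 1, 2, …`) carries the flag `c`, but the number of pairs `u < v` with
`u + v + 1 = j` for which the letters at the positions `u` and `v` both have the bit `1` has not the
parity `c`.

`Prog Λ n`: nonuniform deterministic random access programs for words of length `n`. In each step the
program reads the letter at an arbitrary position; it has finitely many states (a machine which
reads its input by random access and has `S` bits of memory has at most `2 ^ S` states), and all
computations between two accesses to the input are free. `P.Answers T w b`: on the word `w` the
program halts with the answer `b` after reading at most `T` letters.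

Proof. The rectangle lemma of the starting library (`Pool.Agent.H554R2.Lin.main_rect`, after
Beame, Saks, Sun and Vee, and Ajtai): a small deterministic program of length `k m` which accepts
many points of the cube accepts a large combinatorial rectangle `X × Y` with disjoint sets `A`, `B`
of linear size of variables, `|X| ≥ 2 ^ (0.99 |A|)`, `|Y| ≥ 2 ^ (0.99 |B|)`. Let the flags sit at a
pseudorandom set of positions, of small density. If no point of the rectangle has a wrong flag, then
the bilinear form `∑ v_u w_t`, `u + t = σ`, vanishes on `(X - X) × (Y - Y)`, for all `σ` in the
set. The spans of `X - X` and `Y - Y` have information sets `A \ A0`, `B \ B0` with `A0`, `B0` of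
size at most `0.01 |A|`, `0.01 |B|`; a comparison of ranks shows that the number of pairs of
`A × B` with sum `σ` is at most that for `A0 × B` plus that for `A × B0`. Summation over `σ` and
pseudorandomness give a contradiction.
-/

set_option autoImplicit false

namespace Pool.Agent.Results.MP_cb9e82_lc.LinearTimeSublinearSpace

open Pool.Agent.HM13.LC

/-- (1) The language of the linear grammar `gram` consists of the words with a wrong flag.

(2) For every `k` there is `D` such that for all `n ≥ D` the following holds. Choose a deterministic
random access program for words of length `n` at random in a nonempty finite family `P` of programs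
with at most `2 ^ (n / D)` states, which never give the answer `no` (`false`) for a word of the
language.
Then there is a word of length `n` which is not in the language, and for which the probability of
the answer `no` after at most `k n` accesses to the input is less than `2 ^ (- (n / D))`. -/
theorem result :
    (∀ w : List Letter, w ∈ gram.language ↔
      ∃ (w₁ : List Letter) (b c : Bool) (w₂ : List Letter), w = w₁ ++ (b, some c) :: w₂ ∧
        decide (Odd ((Finset.range w₁.length).filter (fun u => 2 * u + 1 < w₁.length ∧
          (w₁.getD u (false, none)).1 = true ∧
          (w₁.getD (w₁.length - 1 - u) (false, none)).1 = true)).card) ≠ c) ∧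
    ∀ k : ℕ, ∃ D : ℕ, 0 < D ∧ ∀ n ≥ D, ∀ (R : Type) [Fintype R] [Nonempty R]
      (P : R → Prog Letter n), (∀ ρ, Fintype.card (P ρ).Q ≤ 2 ^ (n / D)) →
        (∀ ρ T w, (P ρ).Answers T w false → List.ofFn w ∉ gram.language) →
        ∃ w : Fin n → Letter, List.ofFn w ∉ gram.language ∧
          2 ^ (n / D) * Nat.card {ρ // (P ρ).Answers (k * n) w false} < Fintype.card R :=
  ⟨mem_lang, main⟩

end Pool.Agent.Results.MP_cb9e82_lc.LinearTimeSublinearSpace
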