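import Pool.Agent.HM94.LIN.Main

/-!
# A linear context-free language which monotone machines decide neither in logarithmic space nor fast

The letters are `zero`, `one`, `row`, `fill`, `gate`, with the order `zero ≤ one`.  The grammar `gram`
has the nonterminals `choose` (start), `scan`, `skip`, `carry`, `any` and the rules (`b` is `zero` or
`one`, `c` is any letter)

* `choose → b choose | row choose | row scan`;
* `scan → b scan fill | one skip fill`;
* `skip → b skip | row skip | gate carry | fill any`;
* `carry → b carry | row carry fill | row scan gate`;
* `any → c any | ε`.

It describes the paths in layered graphs: a word has one region for every layer of edges, with one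
row for every vertex and one cell for every possible edge; the letters `fill` and `gate` at the end of
the word are matched with the chosen cells and rows.

A monotone machine (`WordMachine`, `WordMachine.Mono`) for words of length `n` reads in every step the
letter at a position which depends on the time and on the state; the states are (pre)ordered, the
next state is a monotone function of the state and of the letter, the set of the accepting states is
upward closed.  It has space `S` (`SpaceLE`) if there are at most `2 ^ S` states, or if the states are
ordered like `S` registers with values in a linear order.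

Proof: the lower bound for directed reachability (`Pool.Agent.HM94.NL.asym`), for `n ^ c'` layers.
-/

set_option autoImplicit false

namespace Pool.Agent.Results.MP_cb9e82_lc.MonotoneMachines

open Finset Filter Pool.Agent.HM94.NL Pool.Agent.HM94.LIN

/-- The linear language of the grammar `gram` is upward closed, and for every `ε > 0` there is `c > 0`
such that for all large `n` monotone (random) machines with space `n ^ (1 / 2 - ε)` which decide it
for the words of length `n` (with advantage `n ^ (-c)`) need time `n ^ (c log n)`. -/
theorem result :
    (∀ v w : List Letter, List.Forall₂ Letter.Le v w → v ∈ gram.language → w ∈ gram.language) ∧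
    ∀ ε : ℝ, 0 < ε → ∃ c : ℝ, 0 < c ∧ ∀ᶠ n : ℕ in atTop,
      ∀ (S e len : ℕ) {Ω : Type} [Fintype Ω] (μ : Ω → ℝ), (∀ ω, 0 ≤ μ ω) → ∑ ω, μ ω = 1 →
        ∀ {Q : Ω → Type} [∀ ω, Preorder (Q ω)] (M : (ω : Ω) → WordMachine Letter n (Q ω)),
        (∀ ω, (M ω).Mono Letter.Le) → (∀ ω, SpaceLE (Q ω) S) → (∀ ω, (M ω).len ≤ len) →
        (S : ℝ) ≤ (n : ℝ) ^ (1 / 2 - ε) → (2 : ℝ) ^ e ≤ (n : ℝ) ^ c →
        (∀ w w' : Fin n → Letter, List.ofFn w ∈ gram.language → List.ofFn w' ∉ gram.language →
          (∑ ω, if (M ω).out w' = true then μ ω else 0) + 1 / 2 ^ e ≤
            ∑ ω, if (M ω).out w = true then μ ω else 0) →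
        (n : ℝ) ^ (c * Real.logb 2 n) ≤ len :=
  ⟨fun _ w h hv => G_mono hv w h, main⟩

end Pool.Agent.Results.MP_cb9e82_lc.MonotoneMachines
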