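import Pool.Agent.HM13.LS.Gram

/-!
# Linear grammars whose languages are in deterministic logarithmic space

For a nonterminal `A` of a linear grammar consider the pairs `(x, y)` of words with `A ⇒* x A y`.

Theorem (1). Let `G` be a linear grammar such that for every nonterminal `A` one of the following
conditions holds:

* if `A ⇒* x A y` and `A ⇒* x A y'`, then `|y| = |y'|` or `y y' = y' y`;
* if `A ⇒* x A y` and `A ⇒* x' A y`, then `|x| = |x'|` or `x x' = x' x`.

Then the language of `G` is in deterministic logarithmic space.

In other words: a linear grammar that generates a language outside `L` (if there is one) has a
nonterminal `A` and words with `A ⇒* x A y`, `A ⇒* x A y'`, `|y| ≠ |y'|`, `y y' ≠ y' y`, and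
`A ⇒* t A z`, `A ⇒* t' A z`, `|t| ≠ |t'|`, `t t' ≠ t' t`.

(2) All languages generated by linear grammars with one nonterminal and at most two recursive rules
`A → u A v` (and any number of rules `A → u`) are in `L`.

(3) All languages generated by linear grammars in which the words `v` of the rules `A → u B v` are
powers of one letter are in `L` (these are the languages of nondeterministic pushdown automata with
one turn and a pushdown alphabet with one letter, that is one-turn counter automata).

The grammars in (1) - (3) may have exponentially many derivations of one word.

Proof. A derivation runs through the strongly connected components of the set of nonterminals; the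
places where it leaves a component are found by exhaustive search. Inside a component the first
condition implies: either `x` determines the length of `y`, for all `A ⇒* x A y`, or all these words
`y` commute. In the first case the place of the right pointer is determined by the place of the left
pointer, and the derivation is simulated by a finite automaton which computes that place. In both
cases one has to decide whether there is a path with a given word on the left and a given *length* on
the right. The number of such paths is a coefficient of a product of polynomial matrices of bounded
size; it is computed modulo small primes from the values of the polynomials (D. Kane's method for the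
unary subset sum problem).

Logarithmic space: a language is in `L` (`InL`) if it is decided by a loop program with finitely many
registers, containing numbers at most `(n + 2) ^ k` on inputs of length `n`, and read-only access to
the letters of the input; this is equivalent to the usual definition.
-/

set_option autoImplicit false

namespace Pool.Agent.Results.MP_cb9e82_lc.NoncommutingCycles

open Pool.Agent.TH457.HT Pool.Agent.HM13.LS

theorem der_mem {α : Type} {G : LinGrammar α} {b : α}
    (h : ∀ r ∈ G.inner, ∀ c ∈ r.2.2.2, c = b) {A B : G.NT} {x y : List α} (hd : Der G A x B y) :
    ∀ c ∈ y, c = b := by
  induction hd with
  | refl A => exact fun c hc => absurd hc (by simp)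
  | step A B C u v x y hr _ ih =>
    intro c hc
    rcases List.mem_append.1 hc with hc | hc
    · exact ih c hc
    · exact h _ hr c hc

/-- (1) A linear grammar generates a language in `L` if for every nonterminal `A` the words `y` in
derivations `A ⇒* x A y` with the same `x` commute or have the same length, or the words `x` in
derivations `A ⇒* x A y` with the same `y` commute or have the same length. (2) One nonterminal and
at most two recursive rules. (3) The right words of the recursive rules are powers of one letter. -/
theorem result : ∀ (α : Type) (G : LinGrammar α),
    ((∀ A : G.NT,
      (∀ x y y' : List α, Der G A x A y → Der G A x A y' →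
        y.length = y'.length ∨ y ++ y' = y' ++ y) ∨
      (∀ x x' y : List α, Der G A x A y → Der G A x' A y →
        x.length = x'.length ∨ x ++ x' = x' ++ x)) → InL G.language) ∧
    (Subsingleton G.NT → (∃ r₁ r₂, G.inner ⊆ {r₁, r₂}) → InL G.language) ∧
    ((∃ b : α, ∀ r ∈ G.inner, ∀ c ∈ r.2.2.2, c = b) → InL G.language) := by
  intro α G
  refine ⟨inL_of_loc, fun h => ?_, ?_⟩
  · rintro ⟨r₁, r₂, h'⟩
    exact inL_of_two h'
  · rintro ⟨b, hb⟩
    refine inL_of_loc fun A => Or.inl fun x y y' h h' => Or.inr ?_
    have h1 := List.eq_replicate_length.2 (der_mem hb h)
    have h2 := List.eq_replicate_length.2 (der_mem hb h')
    rw [h1, h2, ← List.replicate_add, ← List.replicate_add, add_comm]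

end Pool.Agent.Results.MP_cb9e82_lc.NoncommutingCycles
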